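import Mathlib

/-!
The Erdos-Szekeres bound for cliques and independent sets, and a bound for binomial
coefficients.
-/

namespace Pool.Agent.H599R2.Ram

open SimpleGraph

theorem es {V : Type} (G : SimpleGraph V) :
    ∀ (n a b : ℕ), a + b = n → ∀ U : Finset V, (a + b).choose a ≤ U.card →
      (∃ S ⊆ U, G.IsNClique (a + 1) S) ∨ (∃ S ⊆ U, G.IsNIndepSet (b + 1) S) := by
  classical
  intro n
  induction n with
  | zero =>
    intro a b hab U hU
    obtain ⟨rfl, rfl⟩ : a = 0 ∧ b = 0 := by omega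
    have : U.Nonempty := by rw [← Finset.card_pos]; simpa using hU
    obtain ⟨v, hv⟩ := this
    exact Or.inl ⟨{v}, by simpa using hv, by simp [isNClique_iff]⟩
  | succ n ih =>
    intro a b hab U hU
    have hne : U.Nonempty := by
      rw [← Finset.card_pos]
      exact lt_of_lt_of_le (Nat.choose_pos (Nat.le_add_right a b)) hU
    obtain ⟨v, hv⟩ := hne
    rcases Nat.eq_zero_or_pos a with ha | ha
    · subst ha
      exact Or.inl ⟨{v}, by simpa using hv, by simp [isNClique_iff]⟩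
    rcases Nat.eq_zero_or_pos b with hb | hb
    · subst hb
      exact Or.inr ⟨{v}, by simpa using hv, by simp [isNIndepSet_iff]⟩
    obtain ⟨a, rfl⟩ : ∃ a', a = a' + 1 := ⟨a - 1, by omega⟩
    obtain ⟨b, rfl⟩ : ∃ b', b = b' + 1 := ⟨b - 1, by omega⟩
    set U1 := U.filter (fun u => G.Adj v u) with hU1
    set U2 := (U.filter (fun u => ¬ G.Adj v u)).erase v with hU2
    have hc : U1.card + (U2.card + 1) = U.card := by
      rw [hU2, Finset.card_erase_add_one (by simp [hv])]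
      exact Finset.card_filter_add_card_filter_not _
    have hpas : (a + 1 + (b + 1)).choose (a + 1) =
        (a + (b + 1)).choose a + (a + 1 + b).choose (a + 1) := by
      have h1 : a + 1 + (b + 1) = (a + (b + 1)) + 1 := by ring
      have h2 : a + 1 + b = a + (b + 1) := by ring
      rw [h1, h2, Nat.choose_succ_succ]
    rw [hpas] at hU
    rcases Nat.lt_or_ge U1.card ((a + (b + 1)).choose a) with hlt | hge
    · have h2 : (a + 1 + b).choose (a + 1) ≤ U2.card := by omega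
      rcases ih (a + 1) b (by omega) U2 h2 with ⟨S, hS, hc⟩ | ⟨S, hS, hc⟩
      · exact Or.inl ⟨S, hS.trans ((Finset.erase_subset _ _).trans (Finset.filter_subset _ _)), hc⟩
      · refine Or.inr ⟨insert v S, ?_, ?_⟩
        · exact Finset.insert_subset hv
            (hS.trans ((Finset.erase_subset _ _).trans (Finset.filter_subset _ _)))
        · have hnot : ∀ u ∈ S, ¬ G.Adj v u := fun u hu =>
            (Finset.mem_filter.mp (Finset.mem_of_mem_erase (hS hu))).2
          have hvS : v ∉ S := fun h => Finset.ne_of_mem_erase (hS h) rfl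
          refine ⟨?_, by rw [Finset.card_insert_of_notMem hvS, hc.card_eq]⟩
          rintro x hx y hy hxy
          rw [Finset.mem_coe, Finset.mem_insert] at hx hy
          rcases hx with rfl | hx <;> rcases hy with rfl | hy
          · exact absurd rfl hxy
          · exact hnot y hy
          · exact fun h => hnot x hx h.symm
          · exact hc.isIndepSet hx hy hxy
    · rcases ih a (b + 1) (by omega) U1 hge with ⟨S, hS, hc⟩ | ⟨S, hS, hc⟩
      · refine Or.inl ⟨insert v S, Finset.insert_subset hv (hS.trans (Finset.filter_subset _ _)), ?_⟩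
        have hadj : ∀ u ∈ S, G.Adj v u := fun u hu => (Finset.mem_filter.mp (hS hu)).2
        have hvS : v ∉ S := fun h => G.loopless.irrefl v (hadj v h)
        refine ⟨?_, by rw [Finset.card_insert_of_notMem hvS, hc.card_eq]⟩
        rintro x hx y hy hxy
        rw [Finset.mem_coe, Finset.mem_insert] at hx hy
        rcases hx with rfl | hx <;> rcases hy with rfl | hy
        · exact absurd rfl hxy
        · exact hadj y hy
        · exact (hadj x hx).symm
        · exact hc.isClique hx hy hxy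
      · exact Or.inr ⟨S, hS.trans (Finset.filter_subset _ _), hc⟩

/-- `binom(m + k, m) ≤ 2^(k (e + 4) / 2^e)` if `m ≤ k / 2^e` -/
theorem choose_le {e m k : ℕ} (hm : 2 ^ e * m ≤ k) :
    ((m + k).choose m : ℝ) ≤ 2 ^ ((k : ℝ) * ((e + 4) / 2 ^ e)) := by
  have h1 : (m + k).choose m * (2 ^ e) ^ k ≤ (2 ^ e + 1) ^ (m + k) := by
    have h := add_pow 1 (2 ^ e : ℕ) (m + k)
    rw [add_comm (2 ^ e : ℕ) 1, h]
    have h' := Finset.single_le_sum (f := fun i => 1 ^ i * (2 ^ e) ^ (m + k - i) *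
      (m + k).choose i) (fun i _ => Nat.zero_le _) (Finset.mem_range.mpr (by omega : m < m + k + 1))
    refine le_trans (le_of_eq ?_) h'
    have : m + k - m = k := by omega
    simp only [this, one_pow, one_mul]
    ring
  have h2 : ((m + k).choose m : ℝ) * (2 ^ e) ^ k ≤ (2 ^ e + 1) ^ (m + k) := by exact_mod_cast h1
  have he : (0 : ℝ) < 2 ^ e := by positivity
  have h3 : ((2 : ℝ) ^ e + 1) ^ (m + k) ≤ (2 ^ e) ^ (m + k) * 2 ^ ((2 : ℝ) * (m + k) / 2 ^ e) := by
    have h4 : (2 : ℝ) ^ e + 1 ≤ 2 ^ e * 2 ^ ((2 : ℝ) / 2 ^ e) := by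
      have h5 : 1 + (1 : ℝ) / 2 ^ e ≤ 2 ^ ((2 : ℝ) / 2 ^ e) := by
        have h6 : 1 + (1 : ℝ) / 2 ^ e ≤ Real.exp (1 / 2 ^ e) := by
          have := Real.add_one_le_exp ((1 : ℝ) / 2 ^ e); linarith
        have h7 : Real.exp (1 / 2 ^ e) ≤ 2 ^ ((2 : ℝ) / 2 ^ e) := by
          rw [Real.rpow_def_of_pos (by norm_num)]
          apply Real.exp_le_exp.mpr
          have hlog : (1 : ℝ) / 2 ≤ Real.log 2 := by
            have := Real.log_two_gt_d9; linarith
          have : Real.log 2 * (2 / 2 ^ e) = (2 * Real.log 2) / 2 ^ e := by ring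
          rw [this]
          exact div_le_div_of_nonneg_right (by linarith) he.le
        exact h6.trans h7
      calc (2 : ℝ) ^ e + 1 = 2 ^ e * (1 + 1 / 2 ^ e) := by field_simp
        _ ≤ _ := mul_le_mul_of_nonneg_left h5 he.le
    calc ((2 : ℝ) ^ e + 1) ^ (m + k) ≤ (2 ^ e * 2 ^ ((2 : ℝ) / 2 ^ e)) ^ (m + k) :=
          pow_le_pow_left₀ (by positivity) h4 _
      _ = (2 ^ e) ^ (m + k) * (2 ^ ((2 : ℝ) / 2 ^ e)) ^ (m + k) := mul_pow _ _ _
      _ = _ := by
          congr 1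
          rw [← Real.rpow_natCast ((2 : ℝ) ^ ((2 : ℝ) / 2 ^ e)) (m + k), ← Real.rpow_mul (by norm_num)]
          congr 1
          push_cast; ring
  have hk : (0 : ℝ) < (2 ^ e) ^ k := by positivity
  have h5 : ((m + k).choose m : ℝ) ≤ (2 ^ e) ^ m * 2 ^ ((2 : ℝ) * (m + k) / 2 ^ e) := by
    have h6 := h2.trans h3
    rw [pow_add ((2 : ℝ) ^ e) m k] at h6
    have h7 : ((m + k).choose m : ℝ) * (2 ^ e) ^ k ≤
        ((2 ^ e) ^ m * 2 ^ ((2 : ℝ) * (m + k) / 2 ^ e)) * (2 ^ e) ^ k := by linarith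
    exact le_of_mul_le_mul_right h7 hk
  refine h5.trans ?_
  have h8 : ((2 : ℝ) ^ e) ^ m = 2 ^ ((e : ℝ) * m) := by
    rw [← pow_mul, ← Real.rpow_natCast]; push_cast; rfl
  rw [h8, ← Real.rpow_add (by norm_num)]
  apply Real.rpow_le_rpow_of_exponent_le (by norm_num)
  have hm' : (2 : ℝ) ^ e * m ≤ k := by exact_mod_cast hm
  have hmk : (m : ℝ) ≤ k / 2 ^ e := by rw [le_div_iff₀ he]; linarith
  have hmk2 : (m : ℝ) ≤ k := by
    have h1e : (1 : ℝ) ≤ 2 ^ e := one_le_pow₀ (by norm_num)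
    nlinarith [Nat.cast_nonneg (α := ℝ) m]
  have h9 : (2 : ℝ) * (m + k) / 2 ^ e ≤ 4 * k / 2 ^ e :=
    div_le_div_of_nonneg_right (by linarith) he.le
  have h10 : (e : ℝ) * m ≤ e * (k / 2 ^ e) := mul_le_mul_of_nonneg_left hmk (Nat.cast_nonneg _)
  calc (e : ℝ) * m + 2 * (m + k) / 2 ^ e ≤ e * (k / 2 ^ e) + 4 * k / 2 ^ e := add_le_add h10 h9
    _ = k * ((e + 4) / 2 ^ e) := by ring

/-- `(e + 4) / 2^e` is arbitrarily small -/
theorem exists_level {η : ℝ} (hη : 0 < η) : ∃ e : ℕ, 1 ≤ e ∧ ((e : ℝ) + 4) / 2 ^ e ≤ η := by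
  have h1 : Filter.Tendsto (fun n : ℕ => (n : ℝ) ^ 1 / 2 ^ n) Filter.atTop (nhds 0) :=
    tendsto_pow_const_div_const_pow_of_one_lt 1 (by norm_num)
  have h2 : Filter.Tendsto (fun n : ℕ => (n : ℝ) ^ 0 / 2 ^ n) Filter.atTop (nhds 0) :=
    tendsto_pow_const_div_const_pow_of_one_lt 0 (by norm_num)
  have h3 : Filter.Tendsto (fun n : ℕ => (n : ℝ) ^ 1 / 2 ^ n + 4 * ((n : ℝ) ^ 0 / 2 ^ n))
      Filter.atTop (nhds 0) := by
    have := h1.add (h2.const_mul 4)
    simpa using this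
  have h4 := (h3.eventually (gt_mem_nhds hη)).and (Filter.eventually_ge_atTop 1)
  obtain ⟨e, he, he1⟩ := h4.exists
  refine ⟨e, he1, ?_⟩
  have : ((e : ℝ) + 4) / 2 ^ e = (e : ℝ) ^ 1 / 2 ^ e + 4 * ((e : ℝ) ^ 0 / 2 ^ e) := by
    rw [pow_one, pow_zero]; ring
  rw [this]; exact he.le

end Pool.Agent.H599R2.Ram
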